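import Pool.Agent.R409.EV.Prod

/-!
# Continuation or transcendence on the edge of the L-functions of all projective varieties

`X` is a smooth projective variety over a number field `K` (for example `K = ℚ`), of dimension `d`,
and `i ≤ 2d`.  The Euler product `L(H^i(X), s)` converges for `Re s > i/2 + 1`; a continuation across
any point of the edge `Re s = i/2 + 1`, the first step of the conjecture, is not known in general.
The theorem says that at almost every point of the edge one of two things happens: either
`L(H^i(X), s)` continues holomorphically to a neighbourhood of the point, or its boundary value at the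
point is a transcendental number, transcendental even over the field generated by the values at this
point of any countable set of (locally) analytic functions given in advance.
-/

set_option autoImplicit false

namespace Pool.Agent.Results.MP_039d94_nt.ContinuationOrTranscendence

open NumberField IsDedekindDomain MeasureTheory Filter Topology Polynomial
open Pool.Agent.TH958.BV

/-- `L(H^i(X), s)` continues holomorphically to a neighbourhood of the point `i/2 + 1 + iτ` of the
edge: near this point it agrees, for `Re s > i/2 + 1`, with a function analytic at this point. -/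
def Continues {K : Type} [Field K] [NumberField K] (B : HeightOneSpectrum (𝓞 K) → ℂ[X]) (i : ℕ)
    (τ : ℝ) : Prop :=
  ∃ φ : ℂ → ℂ, AnalyticAt ℂ φ (edgePoint i τ) ∧
    ∀ᶠ s in 𝓝 (edgePoint i τ), (i : ℝ) / 2 + 1 < s.re → LFun B s = φ s

/-- The values at `s` of the functions in `A` which are analytic at `s`. -/
def values (A : Set (ℂ → ℂ)) (s : ℂ) : Set ℂ :=
  {z : ℂ | ∃ g ∈ A, AnalyticAt ℂ g s ∧ g s = z}

/-- **Continuation or transcendence.**  Let `X` be a smooth projective variety of dimension `d` over a
number field `K`, let `i ≤ 2d`, and let `B_v` be the Euler factors of `L(H^i(X), s)`, with the factors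
at the finitely many bad primes arbitrary polynomials `≠ 0` with algebraic coefficients.  There is a
function `l` on the real line such that

* `L(H^i(X), s)` tends to `l(τ)` as `s` tends to `i/2 + 1 + iτ` in any angle in the half-plane
  `Re s > i/2 + 1`, for all real `τ` outside a set of Hausdorff dimension `0`;
* for every countable set `A` of functions, for almost every real `τ`, either `L(H^i(X), s)`
  continues holomorphically to a neighbourhood of `i/2 + 1 + iτ`, or `l(τ)` is transcendental over the
  field generated over `ℚ` by the values `g(i/2 + 1 + iτ)` of all functions `g` in `A` which are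
  analytic at `i/2 + 1 + iτ`. -/
theorem result (K : Type) [Field K] [NumberField K] (n : ℕ)
    (X : Set (MvPolynomial (Fin n) (𝓞 K))) (d i N : ℕ) (B : HeightOneSpectrum (𝓞 K) → ℂ[X])
    (_ : IsEulerSystem X d i N B) :
    ∃ l : ℝ → ℂ,
      (∃ Z : Set ℝ, dimH Z = 0 ∧ ∀ τ : ℝ, τ ∉ Z → ∀ C : ℝ,
        Tendsto (LFun B) (𝓝[angle i τ C] (edgePoint i τ)) (𝓝 (l τ))) ∧
      ∀ A : Set (ℂ → ℂ), A.Countable → ∀ᵐ τ : ℝ, Continues B i τ ∨
        Transcendental (IntermediateField.adjoin ℚ (values A (edgePoint i τ))) (l τ) := by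
  rename_i hB
  set b := Pool.Agent.TH339.MP.bb (Pool.Agent.R409.EV.be X d i N B) with hbdef
  have hb := Pool.Agent.TH339.MP.norm_bb (Pool.Agent.R409.EV.norm_be X d i N B)
  have hLb : ∀ s : ℂ, (i : ℝ) / 2 + 1 < s.re → LFun B s =
      (Pool.Agent.R409.EV.DD hB (s - (i : ℂ) / 2))⁻¹ *
        Complex.exp (Pool.Agent.TH339.MP.FF b (s - (i : ℂ) / 2)) := by
    intro s hs
    have h1 : 1 < (s - (i : ℂ) / 2).re := by
      have h3 : ((i : ℂ) / 2) = (((i : ℝ) / 2 : ℝ) : ℂ) := by push_cast; rfl
      rw [Complex.sub_re, h3, Complex.ofReal_re]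
      linarith
    have h2 := Pool.Agent.R409.EV.LFun_eq hB h1
    rwa [sub_add_cancel] at h2
  have hsub : ∀ τ : ℝ, edgePoint i τ - (i : ℂ) / 2 = Pool.Agent.TH345.ET.ep τ := by
    intro τ
    unfold edgePoint Pool.Agent.TH345.ET.ep
    push_cast
    ring
  have hep : ∀ τ : ℝ, Pool.Agent.TH345.ET.ep τ + (i : ℂ) / 2 = edgePoint i τ := by
    intro τ
    rw [← hsub, sub_add_cancel]
  have hdim := (Pool.Agent.TH339.MP.boundary hb).2.1
  set l : ℝ → ℂ := fun τ => (Pool.Agent.R409.EV.DD hB (Pool.Agent.TH345.ET.ep τ))⁻¹ *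
    Complex.exp (Pool.Agent.TH339.MP.bl b τ) with hl
  refine ⟨l, ⟨Pool.Agent.W350.Edge.divSet (Pool.Agent.TH339.MP.ap b) ∪
    {τ : ℝ | Pool.Agent.R409.EV.DD hB (Pool.Agent.TH345.ET.ep τ) = 0}, ?_, fun τ hτ C => ?_⟩,
    fun A hA => ?_⟩
  · rw [dimH_union, hdim, (Pool.Agent.R409.EV.DD_line hB).dimH_zero, max_self]
  · rw [Set.mem_union, not_or] at hτ
    obtain ⟨hτ1, hτ2⟩ := hτ
    have hne : Pool.Agent.R409.EV.DD hB (Pool.Agent.TH345.ET.ep τ) ≠ 0 := hτ2
    have h5 := (Complex.continuous_exp.tendsto _).comp (Pool.Agent.TH339.MP.bl_angle hb hτ1 C)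
    have h6 : Tendsto (fun s : ℂ => s - edgePoint i τ) (𝓝[angle i τ C] (edgePoint i τ))
        (𝓝[{z : ℂ | 0 < z.re ∧ ‖z‖ ≤ C * z.re}] 0) := by
      rw [tendsto_nhdsWithin_iff]
      constructor
      · have h7 : Tendsto (fun s : ℂ => s - edgePoint i τ) (𝓝 (edgePoint i τ))
            (𝓝 (edgePoint i τ - edgePoint i τ)) :=
          (continuous_id.sub continuous_const).tendsto _
        rw [sub_self] at h7
        exact h7.mono_left nhdsWithin_le_nhds
      · filter_upwards [self_mem_nhdsWithin] with s hs
        have hre : (s - edgePoint i τ).re = s.re - ((i : ℝ) / 2 + 1) := by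
          unfold edgePoint
          simp
        refine ⟨?_, ?_⟩
        · rw [hre]
          linarith [hs.1]
        · rw [hre]
          exact hs.2
    have h7 : Tendsto (fun s : ℂ => (Pool.Agent.R409.EV.DD hB (s - (i : ℂ) / 2))⁻¹)
        (𝓝[angle i τ C] (edgePoint i τ))
        (𝓝 (Pool.Agent.R409.EV.DD hB (Pool.Agent.TH345.ET.ep τ))⁻¹) := by
      have h8 : Tendsto (fun s : ℂ => s - (i : ℂ) / 2) (𝓝 (edgePoint i τ))
          (𝓝 (edgePoint i τ - (i : ℂ) / 2)) :=
        (continuous_id.sub continuous_const).tendsto _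
      rw [hsub] at h8
      exact ((((Pool.Agent.R409.EV.DD_analytic hB _).continuousAt.tendsto).comp h8).inv₀
        hne).mono_left nhdsWithin_le_nhds
    refine (h7.mul (h5.comp h6)).congr' ?_
    filter_upwards [self_mem_nhdsWithin] with s hs
    rw [hLb s hs.1]
    simp only [Function.comp_apply]
    congr 3
    rw [← hep]
    unfold Pool.Agent.TH345.ET.ep
    ring
  · -- the functions `s ↦ g (s + i/2)` and `D`
    have hshift : ∀ (g : ℂ → ℂ) (τ : ℝ), AnalyticAt ℂ g (edgePoint i τ) →
        AnalyticAt ℂ (fun s => g (s + (i : ℂ) / 2)) (Pool.Agent.TH345.ET.ep τ) := by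
      intro g τ hg
      refine AnalyticAt.fun_comp (g := g) (f := fun s : ℂ => s + (i : ℂ) / 2) ?_
        (analyticAt_id.add analyticAt_const)
      rw [hep]
      exact hg
    set A' : Set (ℂ → ℂ) := insert (Pool.Agent.R409.EV.DD hB)
      ((fun g : ℂ → ℂ => fun s : ℂ => g (s + (i : ℂ) / 2)) '' A) with hA'
    have h1 := Pool.Agent.TH345.ET.ae_transcendental (h := fun _ => 1) hb
      (fun _ => analyticAt_const) (A := A') ((hA.image _).insert _)
    have hcount : ∀ᵐ τ : ℝ, Pool.Agent.R409.EV.DD hB (Pool.Agent.TH345.ET.ep τ) ≠ 0 := by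
      have := (Pool.Agent.R409.EV.DD_line hB).measure_zero (volume : Measure ℝ)
      exact measure_eq_zero_iff_ae_notMem.1 this
    filter_upwards [h1, hcount] with τ hτ hne
    rcases hτ with hτ | hτ
    · left
      obtain ⟨φ, hφ, hev⟩ := hτ
      refine ⟨fun s => (Pool.Agent.R409.EV.DD hB (s - (i : ℂ) / 2))⁻¹ * φ (s - (i : ℂ) / 2),
        ?_, ?_⟩
      · refine AnalyticAt.fun_comp
          (g := fun s => (Pool.Agent.R409.EV.DD hB s)⁻¹ * φ s)
          (f := fun s : ℂ => s - (i : ℂ) / 2) ?_ (analyticAt_id.sub analyticAt_const)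
        rw [hsub]
        exact ((Pool.Agent.R409.EV.DD_analytic hB _).fun_inv hne).mul hφ
      · have h8 : Tendsto (fun s : ℂ => s - (i : ℂ) / 2) (𝓝 (edgePoint i τ))
            (𝓝 (edgePoint i τ - (i : ℂ) / 2)) :=
          (continuous_id.sub continuous_const).tendsto _
        rw [hsub] at h8
        filter_upwards [h8.eventually hev] with s hs hs1
        have h9 : 1 < (s - (i : ℂ) / 2).re := by
          have h3 : ((i : ℂ) / 2) = (((i : ℝ) / 2 : ℝ) : ℂ) := by push_cast; rfl
          rw [Complex.sub_re, h3, Complex.ofReal_re]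
          linarith
        rw [hLb s hs1, ← hs h9, one_mul]
    · right
      intro halg
      apply hτ
      have hle : IntermediateField.adjoin ℚ (values A (edgePoint i τ)) ≤
          IntermediateField.adjoin ℚ (Pool.Agent.TH345.ET.vals A'
            (Pool.Agent.TH345.ET.ep τ)) := by
        refine IntermediateField.adjoin.mono _ _ _ ?_
        rintro z ⟨g, hg, hga, rfl⟩
        refine ⟨fun s => g (s + (i : ℂ) / 2), Set.mem_insert_of_mem _ ⟨g, hg, rfl⟩,
          hshift g τ hga, ?_⟩
        simp only
        rw [hep]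
      have h2 : IsAlgebraic (IntermediateField.adjoin ℚ (Pool.Agent.TH345.ET.vals A'
            (Pool.Agent.TH345.ET.ep τ))) (l τ) := by
        obtain ⟨P, hP, hPx⟩ := halg
        refine ⟨P.map (IntermediateField.inclusion hle).toRingHom, ?_, ?_⟩
        · rw [Polynomial.map_ne_zero_iff (IntermediateField.inclusion hle).toRingHom.injective]
          exact hP
        · rw [Polynomial.aeval_def, Polynomial.eval₂_map]
          rw [Polynomial.aeval_def] at hPx
          exact hPx
      have h3 : IsAlgebraic (IntermediateField.adjoin ℚ (Pool.Agent.TH345.ET.vals A'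
            (Pool.Agent.TH345.ET.ep τ)))
            (Pool.Agent.R409.EV.DD hB (Pool.Agent.TH345.ET.ep τ)) := by
        have hmem : Pool.Agent.R409.EV.DD hB (Pool.Agent.TH345.ET.ep τ) ∈
            IntermediateField.adjoin ℚ (Pool.Agent.TH345.ET.vals A'
            (Pool.Agent.TH345.ET.ep τ)) :=
          IntermediateField.subset_adjoin _ _ ⟨_, Set.mem_insert _ _,
            Pool.Agent.R409.EV.DD_analytic hB _, rfl⟩
        exact isAlgebraic_algebraMap (⟨_, hmem⟩ : IntermediateField.adjoin ℚ
          (Pool.Agent.TH345.ET.vals A' (Pool.Agent.TH345.ET.ep τ)))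
      have h4 : Pool.Agent.TH345.ET.bv b (fun _ => 1) τ =
          Pool.Agent.R409.EV.DD hB (Pool.Agent.TH345.ET.ep τ) * l τ := by
        unfold Pool.Agent.TH345.ET.bv
        simp only [hl]
        rw [← mul_assoc, mul_inv_cancel₀ hne]
      rw [h4]
      exact h3.mul h2

end Pool.Agent.Results.MP_039d94_nt.ContinuationOrTranscendence
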