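import Pool.Agent.R409.EV.Fam

/-!
# Algebraic independence of the values of L-functions of varieties on the edge

The L-functions `L(H^i(X), s)` of smooth projective varieties `X` over number fields have, in angles
at almost all points `i/2 + 1 + iτ` of the edge of absolute convergence, boundary values `l(τ)`.  For
a countable, multiplicatively independent family of such L-functions, and for almost all `τ`, the
numbers `τ`, `p^{-iτ}` for all primes `p`, and the boundary values of all functions of the family are
algebraically independent, over `ℚ` or any countable field given in advance.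
-/

set_option autoImplicit false

namespace Pool.Agent.Results.MP_039d94_nt.EdgeAlgebraicIndependence

open NumberField IsDedekindDomain MeasureTheory Filter Topology Polynomial
open Pool.Agent.TH958.BV Pool.Agent.R409.EV

/-- The numbers `τ` and `p^{-iτ}`, `p` prime. -/
noncomputable def powers (τ : ℝ) : Option Nat.Primes → ℂ
  | none => (τ : ℂ)
  | some p => ((p : ℕ) : ℂ) ^ (-((τ : ℂ) * Complex.I))

/-- For a family `V` of L-functions of varieties there are functions `l_j` on the real line such that

* for all `τ` outside a set of Hausdorff dimension `0` and all `j`, `L(H^{i_j}(X_j), s)` tends to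
  `l_j(τ)` as `s` tends to `i_j/2 + 1 + iτ` in any angle;
* for every countable field `k` of complex numbers and almost every `τ`, the numbers `l_j(τ)`, `τ` and
  `p^{-iτ}`, `p` prime, are algebraically independent over `k`. -/
def IndependentOnEdge {J : Type} (V : J → Datum) : Prop :=
  ∃ l : J → ℝ → ℂ,
    (∃ Z : Set ℝ, dimH Z = 0 ∧ ∀ τ : ℝ, τ ∉ Z → ∀ (j : J) (C : ℝ),
      Tendsto (LFun (V j).B) (𝓝[angle (V j).i τ C] (edgePoint (V j).i τ)) (𝓝 (l j τ))) ∧
    ∀ k : Subfield ℂ, (k : Set ℂ).Countable → ∀ᵐ τ : ℝ,
      AlgebraicIndependent k (Sum.elim (fun j => l j τ) (powers τ))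

/-- **Algebraic independence on the edge.**  Every countable multiplicatively independent family of
L-functions `L(H^{i_j}(X_j), s)` of smooth projective varieties over number fields has boundary values
on the edge which are algebraically independent at almost every `τ`, together with `τ` and all
`p^{-iτ}`, over every countable field.  A single L-function `L(H^i(X), s)` with `b_i(X) > 0` is a
multiplicatively independent family. -/
theorem result :
    (∀ (J : Type) [Countable J] (V : J → Datum), MultIndep V → IndependentOnEdge V) ∧
      ∀ V : Datum, 0 < V.N → IndependentOnEdge (fun _ : Unit => V) := by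
  have main : ∀ (J : Type) [Countable J] (V : J → Datum), MultIndep V → IndependentOnEdge V := by
    intro J hJ V hV
    have hb : ∀ j x, ‖bV (V j) x‖ ≤ ((Module.finrank ℚ (V j).K : ℝ) * (V j).N) / (x.2 + 1 : ℕ) :=
      fun j => bV_bound (V j)
    set D : J → MvPolynomial (Option Nat.Primes) ℂ := fun j => DDp (V j).isEulerSystem with hD
    have hxs : ∀ τ : ℝ, xs (Pool.Agent.TH345.ET.ep τ) = powers τ := by
      intro τ
      funext o
      unfold xs powers Pool.Agent.TH345.ET.ep
      rcases o with _ | p
      · simp only [Option.elim]
        have := Complex.I_mul_I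
        linear_combination (-(τ : ℂ)) * this
      · simp only [Option.elim]
        congr 1
        ring
    refine ⟨fun j τ => bval (fun j => bV (V j)) D τ j, ?_, fun k hk => ?_⟩
    · refine ⟨⋃ j, (Pool.Agent.W350.Edge.divSet (Pool.Agent.TH339.MP.ap (bV (V j))) ∪
        {τ : ℝ | DD (V j).isEulerSystem (Pool.Agent.TH345.ET.ep τ) = 0}), ?_,
        fun τ hτ j C => ?_⟩
      · rw [dimH_iUnion]
        simp only [dimH_union, (Pool.Agent.TH339.MP.boundary (hb _)).2.1,
          (DD_line (V _).isEulerSystem).dimH_zero, max_self, ENNReal.iSup_zero]
      · rw [Set.mem_iUnion, not_exists] at hτ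
        have hτj := hτ j
        rw [Set.mem_union, not_or] at hτj
        obtain ⟨hτ1, hτ2⟩ := hτj
        have hne : DD (V j).isEulerSystem (Pool.Agent.TH345.ET.ep τ) ≠ 0 := hτ2
        have hsub : edgePoint (V j).i τ - ((V j).i : ℂ) / 2 = Pool.Agent.TH345.ET.ep τ := by
          unfold edgePoint Pool.Agent.TH345.ET.ep
          push_cast
          ring
        have hLb : ∀ s : ℂ, ((V j).i : ℝ) / 2 + 1 < s.re → LFun (V j).B s =
            (DD (V j).isEulerSystem (s - ((V j).i : ℂ) / 2))⁻¹ *
              Complex.exp (Pool.Agent.TH339.MP.FF (bV (V j)) (s - ((V j).i : ℂ) / 2)) := by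
          intro s hs
          have h1 : 1 < (s - ((V j).i : ℂ) / 2).re := by
            have h3 : (((V j).i : ℂ) / 2) = ((((V j).i : ℝ) / 2 : ℝ) : ℂ) := by push_cast; rfl
            rw [Complex.sub_re, h3, Complex.ofReal_re]
            linarith
          have h2 := LFun_eq (V j).isEulerSystem h1
          rwa [sub_add_cancel] at h2
        have h5 := (Complex.continuous_exp.tendsto _).comp
          (Pool.Agent.TH339.MP.bl_angle (hb j) hτ1 C)
        have h6 : Tendsto (fun s : ℂ => s - edgePoint (V j).i τ)
            (𝓝[angle (V j).i τ C] (edgePoint (V j).i τ))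
            (𝓝[{z : ℂ | 0 < z.re ∧ ‖z‖ ≤ C * z.re}] 0) := by
          rw [tendsto_nhdsWithin_iff]
          constructor
          · have h7 : Tendsto (fun s : ℂ => s - edgePoint (V j).i τ) (𝓝 (edgePoint (V j).i τ))
                (𝓝 (edgePoint (V j).i τ - edgePoint (V j).i τ)) :=
              (continuous_id.sub continuous_const).tendsto _
            rw [sub_self] at h7
            exact h7.mono_left nhdsWithin_le_nhds
          · filter_upwards [self_mem_nhdsWithin] with s hs
            have hre : (s - edgePoint (V j).i τ).re = s.re - (((V j).i : ℝ) / 2 + 1) := by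
              unfold edgePoint
              simp
            refine ⟨?_, ?_⟩
            · rw [hre]
              linarith [hs.1]
            · rw [hre]
              exact hs.2
        have h7 : Tendsto (fun s : ℂ => (DD (V j).isEulerSystem (s - ((V j).i : ℂ) / 2))⁻¹)
            (𝓝[angle (V j).i τ C] (edgePoint (V j).i τ))
            (𝓝 (DD (V j).isEulerSystem (Pool.Agent.TH345.ET.ep τ))⁻¹) := by
          have h8 : Tendsto (fun s : ℂ => s - ((V j).i : ℂ) / 2) (𝓝 (edgePoint (V j).i τ))
              (𝓝 (edgePoint (V j).i τ - ((V j).i : ℂ) / 2)) :=
            (continuous_id.sub continuous_const).tendsto _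
          rw [hsub] at h8
          exact ((((DD_analytic (V j).isEulerSystem _).continuousAt.tendsto).comp h8).inv₀
            hne).mono_left nhdsWithin_le_nhds
        have h9 : bval (fun j => bV (V j)) D τ j =
            (DD (V j).isEulerSystem (Pool.Agent.TH345.ET.ep τ))⁻¹ *
              Complex.exp (Pool.Agent.TH339.MP.bl (bV (V j)) τ) := by
          unfold bval
          simp only [hD]
          rw [aeval_DDp]
        change Tendsto _ _ (𝓝 (bval (fun j => bV (V j)) D τ j))
        rw [h9]
        refine (h7.mul (h5.comp h6)).congr' ?_
        filter_upwards [self_mem_nhdsWithin] with s hs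
        rw [hLb s hs.1]
        simp only [Function.comp_apply]
        congr 3
        have h10 : edgePoint (V j).i τ = Pool.Agent.TH345.ET.ep τ + ((V j).i : ℂ) / 2 := by
          rw [← hsub, sub_add_cancel]
        rw [h10]
        unfold Pool.Agent.TH345.ET.ep
        ring
    · have h1 := alg_ind hb (fun e he => ind_of_multIndep hV e he) (D := D)
        (fun j => DDp_ne (V j).isEulerSystem) k hk
      filter_upwards [h1] with τ hτ
      rw [hxs] at hτ
      exact hτ
  exact ⟨main, fun V hN => main Unit _ (multIndep_single V hN)⟩

end Pool.Agent.Results.MP_039d94_nt.EdgeAlgebraicIndependence
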