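import Pool.Agent.R409.ED.Atom

/-!
# The limiting distribution of the logarithms of L-functions of varieties on the edge

Let `X` be a smooth projective variety over a number field `K`.  Without continuation of
`L(H^i(X), s)` its logarithm has boundary values almost everywhere on the edge `Re s = i/2 + 1` of the
half-plane of absolute convergence.  We show that they have a limiting distribution, which is reached
uniformly on all intervals of the same length, also for test functions of exponential growth, so that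
it comes with the asymptotic formula for all small complex moments of `L(H^i(X), s)` on the edge.
The limiting distribution is given by the Euler product: each Euler factor at a rational prime `p` is
periodic on the edge, with the period `2π / log p`, and the mean value of a product of complex powers
of the `L`-function and of its conjugate is the product of the mean values of the Euler factors.  The
limiting distribution has no atoms.
-/

set_option autoImplicit false

namespace Pool.Agent.Results.MP_039d94_nt.EdgeDistribution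

open NumberField IsDedekindDomain MeasureTheory Filter Topology
open Pool.Agent.TH958.BV Pool.Agent.R409.EV
open scoped ComplexConjugate

variable {K : Type} [Field K] [NumberField K]

/-- `l` is the boundary function of `log L(H^i(X), s)`: it is almost everywhere measurable, and for
all `τ` outside a set of Hausdorff dimension `0`, `log L(H^i(X), s)` tends to `l(τ)` and
`L(H^i(X), s)` to `e^{l(τ)}` as `s` tends to `i/2 + 1 + iτ` in any angle. -/
def IsBoundaryLog (i : ℕ) {N : ℕ} (α : HeightOneSpectrum (𝓞 K) → Fin N → ℂ) (l : ℝ → ℂ) : Prop :=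
  AEMeasurable l ∧ ∃ Z : Set ℝ, dimH Z = 0 ∧ ∀ τ : ℝ, τ ∉ Z → ∀ C : ℝ,
    Tendsto (logL α) (𝓝[angle i τ C] (edgePoint i τ)) (𝓝 (l τ)) ∧
    Tendsto (LProd α) (𝓝[angle i τ C] (edgePoint i τ)) (𝓝 (Complex.exp (l τ)))

/-- The function `g` is integrable on all long intervals, and its mean over an interval of length
`T` tends to `m` as `T → ∞`, uniformly in the position of the interval. -/
def UniformMean (g : ℝ → ℂ) (m : ℂ) : Prop :=
  ∀ ε : ℝ, 0 < ε → ∃ T₀ : ℝ, 0 < T₀ ∧ ∀ a T : ℝ, T₀ ≤ T →
    IntervalIntegrable g volume a (a + T) ∧ ‖(T : ℂ)⁻¹ * (∫ t in a..(a + T), g t) - m‖ ≤ ε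

/-- The logarithm of the Euler factor `L_p(s) = ∏_{v ∣ p} ∏_j (1 - α_{v,j} q_v^{-s})⁻¹` at the rational
prime `p`. -/
noncomputable def eulerLog {N : ℕ} (α : HeightOneSpectrum (𝓞 K) → Fin N → ℂ) (p : ℕ) (s : ℂ) : ℂ :=
  ∑ᶠ v ∈ {v : HeightOneSpectrum (𝓞 K) | (p : 𝓞 K) ∈ v.asIdeal},
    ∑ j, -Complex.log (1 - α v j * (Ideal.absNorm v.asIdeal : ℂ) ^ (-s))

/-- The mean of `L_p^{c₁} (conj L_p)^{c₂}` over the period `2π / log p` on the edge. -/
noncomputable def eulerMean (i : ℕ) {N : ℕ} (α : HeightOneSpectrum (𝓞 K) → Fin N → ℂ) (c₁ c₂ : ℂ)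
    (p : ℕ) : ℂ :=
  (Real.log p / (2 * Real.pi) : ℝ) * ∫ τ in (0 : ℝ)..(2 * Real.pi / Real.log p),
    Complex.exp (c₁ * eulerLog α p (edgePoint i τ) + c₂ * conj (eulerLog α p (edgePoint i τ)))

/-- `μ` is the limiting distribution of `l`, for all continuous test functions `Φ` with
`|Φ(z)| ≤ C e^{κ|z|}`, `κ M < 1`. -/
def IsLimitLaw (l : ℝ → ℂ) (M : ℝ) (μ : Measure ℂ) : Prop :=
  ∀ κ C : ℝ, 0 ≤ κ → κ * M < 1 → ∀ Φ : ℂ → ℂ, Continuous Φ →
    (∀ z, ‖Φ z‖ ≤ C * Real.exp (κ * ‖z‖)) →
    Integrable Φ μ ∧ UniformMean (fun t => Φ (l t)) (∫ z, Φ z ∂μ)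

/-- **The limiting distribution on the edge.**  Let `X` be a smooth projective variety over a number
field `K`, let `N > 0` be its `i`-th Betti number and `α_{v,j}` the parameters of `L(H^i(X), s)`, and put
`M = [K : ℚ] N`.  The boundary function `l` of `log L(H^i(X), s)` on the edge has a limiting
distribution `μ`, a probability measure on `ℂ` without atoms, for all continuous test functions of
exponential type less than `1 / M`, and uniformly on all intervals of the same length.  For all complex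
`c₁`, `c₂` with `|c₁ + conj c₂| M < 1` the infinite product over `p` of the means of
`L_p^{c₁} (conj L_p)^{c₂}` over a period converges, and it is equal to the integral of
`exp (c₁ z + c₂ conj z)` with respect to `μ` and to the mean of `exp (c₁ l + c₂ conj l)`. -/
theorem result (K : Type) [Field K] [NumberField K] (n : ℕ)
    (X : Set (MvPolynomial (Fin n) (𝓞 K))) (d i N : ℕ) (_ : 0 < N)
    (α : HeightOneSpectrum (𝓞 K) → Fin N → ℂ) (_ : IsParameter X d i α) :
    ∃ l : ℝ → ℂ, IsBoundaryLog i α l ∧ ∃ μ : Measure ℂ, IsProbabilityMeasure μ ∧ (∀ z, μ {z} = 0) ∧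
      IsLimitLaw l (Module.finrank ℚ K * N) μ ∧
      ∀ c₁ c₂ : ℂ, ‖c₁ + conj c₂‖ * (Module.finrank ℚ K * N) < 1 → ∃ E : ℂ,
        Tendsto (fun Y : ℕ => ∏ p ∈ (Finset.range (Y + 1)).filter Nat.Prime, eulerMean i α c₁ c₂ p)
          atTop (𝓝 E) ∧
        ∫ z, Complex.exp (c₁ * z + c₂ * conj z) ∂μ = E ∧
        UniformMean (fun t => Complex.exp (c₁ * l t + c₂ * conj (l t))) E := by
  rename_i hN hα
  have hb := bT_bound (i := i) hα.2
  obtain ⟨μ, h1, h2⟩ := Pool.Agent.R409.ED.main hb
  have hlaw : IsLimitLaw (Pool.Agent.TH339.MP.bl (bT i α)) (Module.finrank ℚ K * N)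
      (μ : Measure ℂ) := by
    intro κ C h0 hκ Φ hΦ hC
    exact h1 κ C h0 hκ Φ hΦ hC
  refine ⟨Pool.Agent.TH339.MP.bl (bT i α), ⟨(Pool.Agent.TH339.MP.boundary hb).1, _,
    (Pool.Agent.TH339.MP.boundary hb).2.1, fun τ hτ C => ?_⟩, (μ : Measure ℂ), inferInstance, ?_, hlaw,
    fun c₁ c₂ hc => ⟨_, ?_, rfl, ?_⟩⟩
  · have h1 := logL_angle hα.2 hτ C
    refine ⟨h1, ?_⟩
    refine ((Complex.continuous_exp.tendsto _).comp h1).congr' ?_
    filter_upwards [self_mem_nhdsWithin] with s hs
    exact (LProd_exp hα.2 hs.1).symm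
  · have hinf : Infinite (HeightOneSpectrum (𝓞 K)) := Pool.Agent.R409.ED.infinite_places K
    obtain ⟨v, β, hβ1, hβ2, -⟩ := hα.1.exists
    have hq : 0 < Ideal.absNorm v.asIdeal := by
      have := Pool.Agent.TH339.MP.two_le_nm v
      unfold Pool.Agent.TH339.MP.nm at this
      omega
    have hj : Pool.Agent.R409.EV.nal i α v ⟨0, hN⟩ ≠ 0 := by
      unfold Pool.Agent.R409.EV.nal
      refine mul_ne_zero (fun h0 => ?_) ?_
      · have h3 := hβ2 i (α v ⟨0, hN⟩) (by
          rw [hβ1]
          exact Multiset.mem_map.2 ⟨⟨0, hN⟩, Finset.mem_univ_val _, rfl⟩)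
        rw [h0, norm_zero] at h3
        have h4 : (0 : ℝ) < (Ideal.absNorm v.asIdeal : ℝ) ^ ((i : ℝ) / 2) :=
          Real.rpow_pos_of_pos (by exact_mod_cast hq) _
        linarith
      · rw [Complex.cpow_ne_zero_iff]
        exact Or.inl (Nat.cast_ne_zero.2 hq.ne')
    exact Pool.Agent.R409.ED.no_atoms hb (Pool.Agent.TH339.MP.pr v)
      (Pool.Agent.R409.ED.hl_finite hα.2 ((Pool.Agent.TH339.MP.mem_Sp _ _).2 rfl) hj)
      (μ : Measure ℂ) h2
  · refine (h2 c₁ c₂ hc).congr fun Y => ?_
    simp_rw [Pool.Agent.R409.ED.pmean_eq hα.2]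
    exact Pool.Agent.R409.ED.prod_PY _ Y
  · exact (hlaw ‖c₁ + conj c₂‖ 1 (norm_nonneg _) hc _ (Pool.Agent.R409.ED.continuous_EE c₁ c₂)
      (Pool.Agent.R409.ED.norm_EE c₁ c₂)).2

end Pool.Agent.Results.MP_039d94_nt.EdgeDistribution
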