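import Pool.Agent.R409.EV.Temp
import Pool.Agent.R409.EV.Osc

/-!
# Bounded mean oscillation of the logarithms of L-functions of varieties on the edge

For a smooth projective variety `X` over a number field `K`, the boundary values of
`log L(H^i(X), s)` on the edge of absolute convergence, whose existence outside a set of Hausdorff
dimension `0` is known, are of bounded mean oscillation: at every scale `h ≤ 1/2` and around every
point `i/2 + 1 + it` of the edge they differ from the value `log L(H^i(X), i/2 + 1 + it + h)` inside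
the half-plane of convergence by `O(b_i(X) [K : ℚ])` in mean, with exponential tails, and the means of
small powers of `|L|` over this part of the edge are comparable with the power of the value inside.
All constants are absolute.
-/

set_option autoImplicit false

namespace Pool.Agent.Results.MP_039d94_nt.EdgeOscillation

open NumberField IsDedekindDomain MeasureTheory Filter Topology
open Pool.Agent.TH958.BV Pool.Agent.R409.EV

/-- `l` is the boundary function of `log L(H^i(X), s)`: it is almost everywhere measurable, and for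
all `τ` outside a set of Hausdorff dimension `0`, `log L(H^i(X), s)` tends to `l(τ)` and
`L(H^i(X), s)` to `e^{l(τ)}` as `s` tends to `i/2 + 1 + iτ` in any angle. -/
def IsBoundaryLog {K : Type} [Field K] [NumberField K] (i : ℕ) {N : ℕ}
    (α : HeightOneSpectrum (𝓞 K) → Fin N → ℂ) (l : ℝ → ℂ) : Prop :=
  AEMeasurable l ∧ ∃ Z : Set ℝ, dimH Z = 0 ∧ ∀ τ : ℝ, τ ∉ Z → ∀ C : ℝ,
    Tendsto (logL α) (𝓝[angle i τ C] (edgePoint i τ)) (𝓝 (l τ)) ∧
    Tendsto (LProd α) (𝓝[angle i τ C] (edgePoint i τ)) (𝓝 (Complex.exp (l τ)))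

/-- The mean oscillation of `l` at the scale `h` around `t`, against the value
`w = log L(H^i(X), i/2 + 1 + it + h)`, is at most `16000 M`, with exponentially small tails. -/
def Oscillation (l : ℝ → ℂ) (M t h : ℝ) (w : ℂ) : Prop :=
  IntegrableOn (fun u => l u - w) (Set.Icc (t - h / 2) (t + h / 2)) ∧
  (1 / h) * ∫ u in (t - h / 2)..(t + h / 2), ‖l u - w‖ ≤ 16000 * M ∧
  ∀ y : ℝ, volume {u ∈ Set.Icc (t - h / 2) (t + h / 2) | y ≤ ‖l u - w‖} ≤
    ENNReal.ofReal (8000 * h * Real.exp (-y / (4 * M)))

/-- The mean of `|e^{c l}|` over the interval of length `h` around `t` is finite and comparable with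
`|e^{c w}|`. -/
def Harnack (l : ℝ → ℂ) (M t h : ℝ) (w : ℂ) : Prop :=
  ∀ c : ℂ, ‖c‖ * M < 1 →
    IntegrableOn (fun u => ‖Complex.exp (c * l u)‖) (Set.Icc (t - h / 2) (t + h / 2)) ∧
    (1 - ‖c‖ * M) / 1000 * ‖Complex.exp (c * w)‖ ≤
      (1 / h) * ∫ u in (t - h / 2)..(t + h / 2), ‖Complex.exp (c * l u)‖ ∧
    (1 / h) * ∫ u in (t - h / 2)..(t + h / 2), ‖Complex.exp (c * l u)‖ ≤
      1000 / (1 - ‖c‖ * M) * ‖Complex.exp (c * w)‖

/-- **Mean oscillation on the edge.**  Let `X` be a smooth projective variety over a number field `K`,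
let `N > 0` be its `i`-th Betti number and `α_{v,j}` the parameters of `L(H^i(X), s)`, and put
`M = [K : ℚ] N`.  There is a boundary function `l` of `log L(H^i(X), s)` such that for all real `t` and
`0 < h ≤ 1/2`, with `w = log L(H^i(X), i/2 + 1 + it + h)`, the mean of `|l - w|` over the interval of
length `h` around `t` is at most `16000 M`, with exponential tails, and for all complex `c` with
`|c| M < 1` the mean of `|e^{cl}|` over this interval is comparable with `|e^{cw}|`, up to the factor
`1000 / (1 - |c| M)`. -/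
theorem result (K : Type) [Field K] [NumberField K] (n : ℕ)
    (X : Set (MvPolynomial (Fin n) (𝓞 K))) (d i N : ℕ) (_ : 0 < N)
    (α : HeightOneSpectrum (𝓞 K) → Fin N → ℂ) (_ : IsParameter X d i α) :
    ∃ l : ℝ → ℂ, IsBoundaryLog i α l ∧ ∀ t h : ℝ, 0 < h → h ≤ 1 / 2 →
      Oscillation l (Module.finrank ℚ K * N) t h (logL α (edgePoint i t + (h : ℂ))) ∧
      Harnack l (Module.finrank ℚ K * N) t h (logL α (edgePoint i t + (h : ℂ))) := by
  rename_i hN hα
  have hb := bT_bound (i := i) hα.2
  have hM : 0 < (Module.finrank ℚ K : ℝ) * N := by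
    have h1 : 0 < Module.finrank ℚ K := Module.finrank_pos
    positivity
  refine ⟨Pool.Agent.TH339.MP.bl (bT i α), ⟨(Pool.Agent.TH339.MP.boundary hb).1, _,
    (Pool.Agent.TH339.MP.boundary hb).2.1, fun τ hτ C => ?_⟩, fun t h hh hh2 => ?_⟩
  · have h1 := logL_angle hα.2 hτ C
    refine ⟨h1, ?_⟩
    refine ((Complex.continuous_exp.tendsto _).comp h1).congr' ?_
    filter_upwards [self_mem_nhdsWithin] with s hs
    exact (LProd_exp hα.2 hs.1).symm
  · rw [logL_at hα.2 hh]
    obtain ⟨h1, h2⟩ := osc_le hb hM hh hh2 t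
    refine ⟨⟨h1, ?_, fun y => tail_le hb hM hh hh2 t y⟩, fun c hc => ?_⟩
    · rw [one_div, inv_mul_le_iff₀ hh]
      linarith
    · obtain ⟨h3, h4, h5⟩ := Pool.Agent.TH339.MP.edge_harnack hb hh hh2 t c hc
      refine ⟨h3, ?_, ?_⟩
      · rw [one_div, le_inv_mul_iff₀ hh]
        linarith
      · rw [one_div, inv_mul_le_iff₀ hh]
        linarith

end Pool.Agent.Results.MP_039d94_nt.EdgeOscillation
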